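import Pool.Agent.Helper48.MG.Trans

/-!
# MG-T3: the typed form of the conclusion implies the form about the model
-/

set_option autoImplicit false

namespace Pool.Agent.Helper48.MG

variable {M : Type} [ZFM M]

namespace T3

theorem isUPair_iff {z x y : M} : IsUPair ZFM.E z x y ↔ z = upair x y := by
  constructor
  · intro h
    exact mem_ext fun t => (h t).trans mem_upair.symm
  · rintro rfl t
    exact mem_upair

theorem isOPair_iff {z x y : M} : IsOPair ZFM.E z x y ↔ z = opair x y := by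
  constructor
  · intro h
    refine mem_ext fun u => (h u).trans ?_
    rw [isUPair_iff, isUPair_iff]
    exact mem_upair.symm
  · rintro rfl u
    rw [isUPair_iff, isUPair_iff]
    exact mem_upair

theorem apl_iff {f x y : M} : Apl ZFM.E f x y ↔ isin (opair x y) f := by
  constructor
  · rintro ⟨z, hz, hf⟩
    rw [isOPair_iff] at hz
    rw [← hz]
    exact hf
  · intro h
    exact ⟨_, isOPair_iff.2 rfl, h⟩

/-! ### omega -/

theorem isSuc_sc (n : N M) : IsSuc ZFM.E (cod M (sc n)) (cod M n) := by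
  intro z
  constructor
  · intro hz
    have hord : IsOrd z := (sc n).1.ord.of_mem hz
    have hz' : (⟨z, hord⟩ : Ord M) < (sc n).1 := hz
    have hm : (⟨⟨z, hord⟩, hz'.trans (sc n).2⟩ : N M) < sc n := hz'
    rcases lt_or_eq_of_le (N.lt_sc.1 hm) with h | h
    · left
      exact h
    · right
      exact congrArg (fun x : N M => x.1.val) h
  · rintro (hz | rfl)
    · exact (sc n).1.ord.1 _ (N.lt_sc_self n) z hz
    · exact N.lt_sc_self n

theorem not_mem_zero (y : M) : ¬ isin y (cod M (0 : N M)) := by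
  intro hy
  have hord : IsOrd y := (0 : N M).1.ord.of_mem hy
  have hy' : (⟨y, hord⟩ : Ord M) < (0 : N M).1 := hy
  exact N.not_lt_zero ⟨⟨y, hord⟩, hy'.trans (0 : N M).2⟩ hy'

theorem isInd_om : IsInd (ZFM.E (M := M)) (om M).val := by
  refine ⟨⟨cod M (0 : N M), not_mem_zero, (0 : N M).2⟩, ?_⟩
  intro x hx
  exact ⟨cod M (sc (⟨⟨x, (om M).ord.of_mem hx⟩, hx⟩ : N M)), isSuc_sc _, (sc _).2⟩

theorem om_subs {s : M} (hs : IsInd ZFM.E s) : Subs ZFM.E (om M).val s := by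
  obtain ⟨⟨e, he, hes⟩, hsuc⟩ := hs
  have key : ∀ n : N M, isin (cod M n) s := by
    refine N.ind (fun n => isin (cod M n) s) (IF.isin IF.cod (IF.const s)) ?_ ?_
    · have : cod M (0 : N M) = e :=
        mem_ext fun y => ⟨fun hy => (not_mem_zero y hy).elim, fun hy => (he y hy).elim⟩
      show isin (cod M (0 : N M)) s
      rw [this]
      exact hes
    · intro n hn
      obtain ⟨y, hy, hys⟩ := hsuc _ hn
      have : cod M (sc n) = y := mem_ext fun z => (isSuc_sc n z).trans (hy z).symm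
      show isin (cod M (sc n)) s
      rw [this]
      exact hys
  intro x hx
  exact key ⟨⟨x, (om M).ord.of_mem hx⟩, hx⟩

theorem isOmega_iff {w : M} : IsOmega ZFM.E w ↔ w = (om M).val := by
  constructor
  · rintro ⟨h1, h2⟩
    exact mem_ext fun x => ⟨fun hx => h2 _ isInd_om x hx, fun hx => om_subs h1 x hx⟩
  · rintro rfl
    exact ⟨isInd_om, fun s hs => om_subs hs⟩

theorem mem_om_iff {x : M} : isin x (om M).val ↔ ∃ n : N M, cod M n = x :=
  ⟨fun hx => ⟨⟨⟨x, (om M).ord.of_mem hx⟩, hx⟩, rfl⟩, fun ⟨n, h⟩ => h ▸ n.2⟩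

theorem mem_alo_iff {x : M} : isin x (alo M).val ↔ ∃ a : La M, cod M a = x :=
  ⟨fun hx => ⟨⟨⟨x, (alo M).ord.of_mem hx⟩, hx⟩, rfl⟩, fun ⟨n, h⟩ => h ▸ n.2⟩

/-! ### subsets of `ℵ_ω` and predicates -/

/-- the predicate of a set -/
def pd (x : M) : IFun M (La M) Prop := ⟨fun a => isin (cod M a) x, IF.isin IF.cod (IF.const x)⟩

theorem pd_apply (x : M) (a : La M) : pd x a ↔ isin (cod M a) x := Iff.rfl

theorem exists_st (X : IFun M (La M) Prop) :
    ∃ x : M, ∀ y, isin y x ↔ ∃ a, cod M a = y ∧ X a := by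
  obtain ⟨s, hs⟩ := IsSet.sep (IF_prop_iff.1 X.prop) (alo M).val
  refine ⟨s, fun y => (hs y).trans ⟨fun h => h.2, fun h => ⟨?_, h⟩⟩⟩
  obtain ⟨a, rfl, _⟩ := h
  exact a.2

/-- the set of a predicate -/
noncomputable def st (X : IFun M (La M) Prop) : M := Classical.choose (exists_st X)

theorem mem_st {X : IFun M (La M) Prop} {y : M} : isin y (st X) ↔ ∃ a, cod M a = y ∧ X a :=
  Classical.choose_spec (exists_st X) y

theorem cod_mem_st {X : IFun M (La M) Prop} {a : La M} : isin (cod M a) (st X) ↔ X a := by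
  rw [mem_st]
  exact exists_cod_iff a

theorem IF_st : IF M (fun X : IFun M (La M) Prop => st X) := by
  refine IF.of_graph ?_
  have : IF M (fun p : IFun M (La M) Prop × M =>
      ∀ y : M, isin y p.2 ↔ ∃ a : La M, (Cl.code a : M) = y ∧ p.1.toFun a) := by fun_prop
  refine this.congrP fun p => ?_
  constructor
  · intro h y
    have h' : st p.1 = p.2 := h
    rw [← h']
    exact mem_st
  · intro h
    exact mem_ext fun y => mem_st.trans (h y).symm

theorem st_subs (X : IFun M (La M) Prop) : Subs ZFM.E (st X) (alo M).val := by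
  intro y hy
  obtain ⟨a, rfl, _⟩ := mem_st.1 hy
  exact a.2

theorem st_pd {x : M} (hx : Subs ZFM.E x (alo M).val) : st (pd x) = x := by
  refine mem_ext fun y => mem_st.trans ?_
  constructor
  · rintro ⟨a, rfl, h⟩
    exact h
  · intro hy
    obtain ⟨a, rfl⟩ := mem_alo_iff.1 (hx y hy)
    exact ⟨a, rfl, hy⟩

theorem pd_st (X : IFun M (La M) Prop) : pd (st X) = X :=
  IFun.ext fun _ => propext cod_mem_st

/-! ### countable bounded sets -/

theorem CB_of_ctblBd {a x : M} (ha : Subs ZFM.E a (alo M).val)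
    (h : CtblBd ZFM.E (alo M).val a x) : CB (pd x) := by
  obtain ⟨hxa, ⟨w, f, hw, ⟨⟨hf1, hf2⟩, hfi⟩, hfs⟩, b, hb, hxb⟩ := h
  rw [isOmega_iff] at hw
  subst hw
  constructor
  · obtain ⟨b', rfl⟩ := mem_alo_iff.1 hb
    exact ⟨b', fun c hc => hxb _ hc⟩
  · have hp : IF M (fun q : N M × La M => isin (opair (cod M q.1) (cod M q.2)) f) := by
      refine IF.isin (IF.opair ?_ ?_) (IF.const f)
      · exact IF.cod.comp IF.fst
      · exact IF.cod.comp IF.snd
    have hval : ∀ {n : N M} {y : M}, Apl ZFM.E f (cod M n) y → isin y x ∧ ∃ c : La M, cod M c = y := by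
      intro n y hy
      obtain ⟨z, hz, hzf⟩ := hy
      obtain ⟨x', y', _, hy', hz'⟩ := hf1 z hzf
      rw [isOPair_iff] at hz hz'
      obtain ⟨_, h2⟩ := opair_inj (hz.symm.trans hz')
      rw [h2]
      exact ⟨hy', mem_alo_iff.1 (ha _ (hxa _ hy'))⟩
    have hu : ∀ n : N M, ∃! c : La M, isin (opair (cod M n) (cod M c)) f := by
      intro n
      obtain ⟨y, hy, hy'⟩ := hf2 (cod M n) (mem_om_iff.2 ⟨n, rfl⟩)
      obtain ⟨_, c, rfl⟩ := hval hy
      refine ⟨c, apl_iff.1 hy, fun d hd => ?_⟩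
      exact Cl.inj (hy' _ (apl_iff.2 hd))
    obtain ⟨e, he, he'⟩ := exists_of_unique hp hu
    refine ⟨⟨e, he⟩, fun n => ?_, fun c hc => ?_, fun n m hnm => ?_⟩
    · exact (hval (apl_iff.2 (he' n))).1
    · obtain ⟨k, hk⟩ := hfs (cod M c) hc
      have hk' : isin k (om M).val := by
        obtain ⟨z, hz, hzf⟩ := hk
        obtain ⟨x', y', hx', _, hz'⟩ := hf1 z hzf
        rw [isOPair_iff] at hz hz'
        obtain ⟨h1, _⟩ := opair_inj (hz.symm.trans hz')
        rw [h1]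
        exact hx'
      obtain ⟨n, rfl⟩ := mem_om_iff.1 hk'
      refine ⟨n, ?_⟩
      obtain ⟨c', hc', hu'⟩ := hu n
      exact (hu' _ (he' n)).trans (hu' _ (apl_iff.1 hk)).symm
    · have hnm' : e n = e m := hnm
      refine Cl.inj (hfi _ _ (cod M (e n)) (apl_iff.2 (he' n)) (apl_iff.2 ?_))
      rw [hnm']
      exact he' m

theorem ctblBd_of_CB {X : IFun M (La M) Prop} (h : CB X) :
    CtblBd ZFM.E (alo M).val (alo M).val (st X) := by
  obtain ⟨⟨b, hb⟩, e, he1, he2, he3⟩ := h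
  refine ⟨st_subs X, ⟨(om M).val, graph e, isOmega_iff.2 rfl, ⟨⟨?_, ?_⟩, ?_⟩, ?_⟩,
    cod M b, b.2, ?_⟩
  · intro z hz
    obtain ⟨n, rfl⟩ := (mem_graph e z).1 hz
    exact ⟨cod M n, cod M (e n), mem_om_iff.2 ⟨n, rfl⟩, cod_mem_st.2 (he1 n), isOPair_iff.2 rfl⟩
  · intro k hk
    obtain ⟨n, rfl⟩ := mem_om_iff.1 hk
    refine ⟨cod M (e n), apl_iff.2 (opair_mem_graph.2 rfl), fun y hy => ?_⟩
    obtain ⟨m, hm⟩ := (mem_graph e _).1 (apl_iff.1 hy)
    obtain ⟨h1, h2⟩ := opair_inj hm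
    rw [Cl.inj h1] at h2
    exact h2.symm
  · intro k k' y hk hk'
    obtain ⟨n, hn⟩ := (mem_graph e _).1 (apl_iff.1 hk)
    obtain ⟨m, hm⟩ := (mem_graph e _).1 (apl_iff.1 hk')
    obtain ⟨h1, h2⟩ := opair_inj hn
    obtain ⟨h3, h4⟩ := opair_inj hm
    have : n = m := he3 n m (Cl.inj (h2.trans h4.symm))
    subst this
    exact h1.symm.trans h3
  · intro y hy
    obtain ⟨c, rfl, hc⟩ := mem_st.1 hy
    obtain ⟨n, hn⟩ := he2 c hc
    exact ⟨cod M n, apl_iff.2 (opair_mem_graph.2 hn)⟩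
  · intro y hy
    obtain ⟨c, rfl, hc⟩ := mem_st.1 hy
    exact hb c hc

theorem IF_CB : IF M (fun X : IFun M (La M) Prop => CB X) := by
  unfold CB
  fun_prop

/-! ### Cantor-Bernstein -/

theorem cantor_bernstein (A : IFun M (La M) Prop) (e : IFun M (La M) (La M))
    (he : ∀ a b, e a = e b → a = b) (heA : ∀ a, A (e a)) :
    ∃ h : IFun M (La M) (La M), (∀ a, A (h a)) ∧ (∀ a b, h a = h b → a = b) ∧
      ∀ c, A c → ∃ a, h a = c := by
  classical
  let C : IFun M (La M) Prop := lam (fun a => ∀ S : IFun M (La M) Prop,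
    (∀ b, ¬ A b → S b) → (∀ b, S b → S (e b)) → S a) (by fun_prop)
  have hC : ∀ a, C a ↔ ∀ S : IFun M (La M) Prop,
    (∀ b, ¬ A b → S b) → (∀ b, S b → S (e b)) → S a := fun a => Iff.rfl
  have hC1 : ∀ b, ¬ A b → C b := fun b hb => (hC b).2 fun S h1 _ => h1 b hb
  have hC2 : ∀ b, C b → C (e b) := fun b hb => (hC _).2 fun S h1 h2 => h2 b ((hC b).1 hb S h1 h2)
  have hC3 : ∀ a, C a → A a → ∃ b, C b ∧ e b = a := by
    intro a ha hAa
    by_contra hcon
    push Not at hcon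
    have := (hC a).1 ha (lam (fun b => C b ∧ b ≠ a) (by fun_prop)) (fun b hb => ⟨hC1 b hb, by
      rintro rfl; exact hb hAa⟩) (fun b hb => ⟨hC2 b hb.1, hcon b hb.1⟩)
    exact this.2 rfl
  have hh : IF M (fun a => if C a then e a else a) := by fun_prop
  refine ⟨⟨fun a => if C a then e a else a, hh⟩, fun a => ?_, fun a b hab => ?_, fun c hc => ?_⟩
  · show A (if C a then e a else a)
    split_ifs with h
    · exact heA a
    · by_contra h'
      exact h (hC1 a h')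
  · have hab' : (if C a then e a else a) = (if C b then e b else b) := hab
    by_cases h1 : C a
    · by_cases h2 : C b
      · rw [if_pos h1, if_pos h2] at hab'
        exact he a b hab'
      · rw [if_pos h1, if_neg h2] at hab'
        exact (h2 (hab' ▸ hC2 a h1)).elim
    · by_cases h2 : C b
      · rw [if_neg h1, if_pos h2] at hab'
        exact (h1 (hab' ▸ hC2 b h2)).elim
      · rw [if_neg h1, if_neg h2] at hab'
        exact hab'
  · by_cases h : C c
    · obtain ⟨b, hb, hbc⟩ := hC3 c h hc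
      refine ⟨b, ?_⟩
      show (if C b then e b else b) = c
      rw [if_pos hb]
      exact hbc
    · refine ⟨c, ?_⟩
      show (if C c then e c else c) = c
      rw [if_neg h]

/-- an internal bijection of `ℵ_ω` onto `A` gives a bijection of the model -/
theorem isBij_of {A : IFun M (La M) Prop} (h : IFun M (La M) (La M)) (h1 : ∀ a, A (h a))
    (h2 : ∀ a b, h a = h b → a = b) (h3 : ∀ c, A c → ∃ a, h a = c) :
    ∃ g, IsBij ZFM.E g (st A) (alo M).val := by
  obtain ⟨g, hg⟩ := IF.isSet_range (M := M)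
    (f := fun a : La M => opair (cod M (h a)) (cod M a)) (by
      refine IF.opair ?_ IF.cod
      exact IF.cod.comp (by fun_prop))
  have hgA : ∀ x y, isin (opair x y) g ↔ ∃ a, cod M (h a) = x ∧ cod M a = y := by
    intro x y
    rw [hg]
    constructor
    · rintro ⟨a, ha⟩
      exact ⟨a, opair_inj ha⟩
    · rintro ⟨a, rfl, rfl⟩
      exact ⟨a, rfl⟩
  refine ⟨g, ⟨⟨?_, ?_⟩, ?_⟩, ?_⟩
  · intro z hz
    obtain ⟨a, rfl⟩ := (hg z).1 hz
    exact ⟨cod M (h a), cod M a, cod_mem_st.2 (h1 a), mem_alo_iff.2 ⟨a, rfl⟩, isOPair_iff.2 rfl⟩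
  · intro x hx
    obtain ⟨c, rfl, hc⟩ := mem_st.1 hx
    obtain ⟨a, rfl⟩ := h3 c hc
    refine ⟨cod M a, apl_iff.2 ((hgA _ _).2 ⟨a, rfl, rfl⟩), fun y hy => ?_⟩
    obtain ⟨a', ha', rfl⟩ := (hgA _ _).1 (apl_iff.1 hy)
    rw [h2 a' a (Cl.inj ha')]
  · intro x x' y hx hx'
    obtain ⟨a, rfl, rfl⟩ := (hgA _ _).1 (apl_iff.1 hx)
    obtain ⟨a', rfl, ha'⟩ := (hgA _ _).1 (apl_iff.1 hx')
    rw [Cl.inj ha']
  · intro y hy
    obtain ⟨a, rfl⟩ := mem_alo_iff.1 hy
    exact ⟨cod M (h a), apl_iff.2 ((hgA _ _).2 ⟨a, rfl, rfl⟩)⟩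

end T3

open T3 in
/-- the typed form implies the form about the model -/
theorem magidor_of_typed' (h : MagT M) : Magidor ZFM.E (alo M).val := by
  intro f hf1 hf2
  -- the typed function
  have hval : ∀ x y, Apl ZFM.E f x y → ∃ c : La M, cod M c = y := by
    rintro x y ⟨z, hz, hzf⟩
    obtain ⟨x', y', _, hy', hz'⟩ := hf1 z hzf
    rw [isOPair_iff] at hz hz'
    obtain ⟨_, h2⟩ := opair_inj (hz.symm.trans hz')
    rw [h2]
    exact mem_alo_iff.1 hy'
  obtain ⟨d0⟩ : Nonempty (La M) := inferInstance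
  have hp : IF M (fun q : IFun M (La M) Prop × La M =>
      (CB q.1 ∧ isin (opair (st q.1) (cod M q.2)) f) ∨ (¬ CB q.1 ∧ q.2 = d0)) := by
    have h1 : IF M (fun q : IFun M (La M) Prop × La M => CB q.1) := IF_CB.comp IF.fst
    have h2 : IF M (fun q : IFun M (La M) Prop × La M =>
        isin (opair (st q.1) (cod M q.2)) f) := by
      refine IF.isin (IF.opair ?_ ?_) (IF.const f)
      · exact IF_st.comp IF.fst
      · exact IF.cod.comp IF.snd
    fun_prop
  have hu : ∀ X : IFun M (La M) Prop, ∃! c : La M,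
      (CB X ∧ isin (opair (st X) (cod M c)) f) ∨ (¬ CB X ∧ c = d0) := by
    intro X
    by_cases hX : CB X
    · obtain ⟨y, hy, hy'⟩ := hf2 (st X) (ctblBd_of_CB hX)
      obtain ⟨c, rfl⟩ := hval _ _ hy
      refine ⟨c, Or.inl ⟨hX, apl_iff.1 hy⟩, ?_⟩
      rintro d (⟨_, hd⟩ | ⟨hd, _⟩)
      · exact Cl.inj (hy' _ (apl_iff.2 hd))
      · exact (hd hX).elim
    · refine ⟨d0, Or.inr ⟨hX, rfl⟩, ?_⟩
      rintro d (⟨hd, _⟩ | ⟨_, hd⟩)
      · exact (hX hd).elim
      · exact hd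
  obtain ⟨F, hF, hF'⟩ := exists_of_unique hp hu
  obtain ⟨A, ⟨e, he, heA⟩, v, hv⟩ := h ⟨F, hF⟩
  obtain ⟨g, hg1, hg2, hg3⟩ := cantor_bernstein A e he heA
  refine ⟨st A, st_subs A, isBij_of g hg1 hg2 hg3, cod M v, mem_alo_iff.2 ⟨v, rfl⟩, ?_⟩
  intro x hx hxv
  have hCB : CB (pd x) := CB_of_ctblBd (st_subs A) hx
  have hxA : Subs ZFM.E x (st A) := hx.1
  have hxl : Subs ZFM.E x (alo M).val := fun y hy => st_subs A y (hxA y hy)
  have hne : F (pd x) ≠ v := hv (pd x) (fun a ha => cod_mem_st.1 (hxA _ ha)) hCB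
  apply hne
  rcases hF' (pd x) with ⟨_, h1⟩ | ⟨h1, _⟩
  · obtain ⟨y, _, hy'⟩ := hf2 (st (pd x)) (ctblBd_of_CB hCB)
    rw [st_pd hxl] at h1 hy'
    exact Cl.inj ((hy' _ (apl_iff.2 h1)).trans (hy' _ hxv).symm)
  · exact (h1 hCB).elim

end Pool.Agent.Helper48.MG
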